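import Pool.Agent.R207.AD5

set_option autoImplicit false

/-! # MP_6d3bed: three solutions below the first eigenvalue

Questions 1 and 2 both have the answer NO, in the unit ball of every dimension `n ≥ 2`, with `μ = 1`,
smooth compactly supported `c, h ≥ 0`, `h ≢ 0`, and with `λ / γ_1` as small as one likes.
-/

namespace Pool.Agent.Results.MP_6d3bed_an.ThreeSolutions

open MeasureTheory Set
open scoped ContDiff
open Pool.Agent.R207.QC (E)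
open Pool.Agent.R207.AC (B IsSol firstEigenvalue IsEigenvalue)

/-- For every dimension `n ≥ 2` and every `ε > 0` there are `c, h ∈ C_c^∞(B)` (`B` is the open unit
ball), `c, h ≥ 0`, `h ≢ 0`, and smooth functions `u₀, u₁, u₂, u₃` such that `u₀ ≥ 0` solves the problem
with parameter `0`, `c u₀ ≢ 0`, the functions `u₁, u₂, u₃` solve the problem with parameter `1` and are
pairwise distinct (`u₁` and `u₂` are not even ordered), and `1 < ε γ_1`. -/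
theorem result (n : ℕ) (hn : 2 ≤ n) (ε : ℝ) (hε : 0 < ε) :
    ∃ c h u₀ u₁ u₂ u₃ : E n → ℝ,
      (ContDiff ℝ ∞ c ∧ HasCompactSupport c ∧ tsupport c ⊆ B n) ∧
      (ContDiff ℝ ∞ h ∧ HasCompactSupport h ∧ tsupport h ⊆ B n) ∧
      (∀ x, 0 ≤ c x) ∧ (∀ x, 0 ≤ h x) ∧ (∃ x ∈ B n, 0 < h x) ∧
      (ContDiff ℝ ∞ u₀ ∧ ContDiff ℝ ∞ u₁ ∧ ContDiff ℝ ∞ u₂ ∧ ContDiff ℝ ∞ u₃) ∧
      IsSol (B n) c (fun _ => 1) h 0 u₀ ∧
      (∀ x ∈ B n, 0 ≤ u₀ x) ∧ (∃ x ∈ B n, 0 < c x * u₀ x) ∧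
      IsSol (B n) c (fun _ => 1) h 1 u₁ ∧
      IsSol (B n) c (fun _ => 1) h 1 u₂ ∧
      IsSol (B n) c (fun _ => 1) h 1 u₃ ∧
      (∃ x ∈ B n, u₂ x < u₁ x) ∧ (∃ x ∈ B n, u₁ x < u₂ x) ∧
      (∃ x ∈ B n, u₃ x < u₁ x) ∧ (∃ x ∈ B n, u₃ x < u₂ x) ∧
      1 < ε * firstEigenvalue (B n) c ∧
      (∀ γ, IsEigenvalue (B n) c γ → 1 < ε * γ) :=
  Pool.Agent.R207.AD.main (by omega) hε

end Pool.Agent.Results.MP_6d3bed_an.ThreeSolutions
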